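import Pool.Agent.Helper85.GD.Far
import Pool.Agent.Helper57.GD.Half

/-!
# FAR in the form of `Helper57.GD.FZ`: all zeros `z` of the Conway polynomial satisfy `‖z‖ ^ 2 ≤ (1003 s) ^ 2`
-/

set_option autoImplicit false

namespace Pool.Agent.Helper85.GD

open Polynomial Pool.Agent.Helper85.Exp Pool.Agent.Helper2.PD Pool.Agent.Helper57.PD Pool.Agent.Helper16.PD Pool.Agent.Helper60.EV2
  Pool.Agent.Helper27.EV2 Pool.Agent.Helper57.EV

variable {P : Type} [Fintype P] {G : Sh P} {s : ℕ}

theorem fz (h : Good s G) [Nonempty P] {nab : Dg G → ℤ[X]} (hn : Cs nab) :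
    Pool.Agent.Helper57.GD.FZ ((1003 * (s : ℝ)) ^ 2) (nab (allPos G)) := by
  classical
  intro z hz
  obtain ⟨b⟩ := (inferInstance : Nonempty P)
  obtain ⟨α, nab', e, hn', -, -, hform, hA⟩ := one_shadow h b
  have hu : nab = nab' := Cs.unique hn hn'
  by_contra hlt
  push Not at hlt
  have h1 : 1003 * (s : ℝ) ≤ ‖z‖ := by
    by_contra h2
    push Not at h2
    have := pow_le_pow_left₀ (norm_nonneg z) h2.le 2
    linarith
  exact nab_far h b hform hA h1 (by rw [← hu]; exact hz)

end Pool.Agent.Helper85.GD
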