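import Pool.Agent.Helper85.GD.FarFZ
import Pool.Agent.Helper57.GD.Final

/-!
# FAR in the form of `Helper57.GD.AllFZ`
-/

set_option autoImplicit false

namespace Pool.Agent.Helper85.GD

open Polynomial Pool.Agent.Helper85.Exp Pool.Agent.Helper2.PD Pool.Agent.Helper57.PD Pool.Agent.Helper57.GD

theorem sq_le_PB (B s : ℕ) (hB : 1003 ^ 2 ≤ B) : (1003 * (s : ℝ)) ^ 2 ≤ (PB B s : ℝ) := by
  have h1 : (s + 1) ^ 2 ≤ (s + 1) ^ B := Nat.pow_le_pow_right (by omega) (by omega)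
  have h2 : (1003 * s) ^ 2 ≤ PB B s := by
    unfold PB
    calc (1003 * s) ^ 2 = 1003 ^ 2 * s ^ 2 := by ring
      _ ≤ 1003 ^ 2 * (s + 1) ^ 2 := Nat.mul_le_mul_left _ (Nat.pow_le_pow_left (by omega) 2)
      _ ≤ B * (s + 1) ^ B := Nat.mul_le_mul hB h1
  exact_mod_cast h2

theorem allFZ : AllFZ := by
  refine ⟨1003 ^ 2, by norm_num, fun s P _ G h hP nab hn => ?_⟩
  have : Nonempty P := hP
  exact (fz h hn).mono (sq_le_PB _ s le_rfl)

end Pool.Agent.Helper85.GD
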