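import Pool.Agent.Helper8.GD.Leg1
import Pool.Agent.Helper49.PD.Special

/-!
# GPOLY, the zeros far from the origin

`G` a connected plane shadow with at most `s` Seifert circles, `c` a complex function on the faces which vanishes on both sides
of one edge and satisfies `c N - ζ c S = (1 - ζ) κ (c W + c E)` at every crossing, `‖ζ‖ ≤ 1 / 2`, `κ ≠ 0`, `1000 s ‖κ‖ ≤ 1`: then `c = 0`.

Proof. Let `g = N - S` at the crossings and `V = Σ ‖g‖`. Energy: `Σ (‖N‖² - ‖S‖²) = 0` gives `Σ ‖g‖² ≤ 6 ‖κ‖ ‖Q‖`, `Q = Σ conj (W + E) g`, and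
`‖Q‖ ≤ 2 V²` by summation along the Seifert circles. Chains: if the face `S` of a crossing has one crossing behind it, then
`‖g‖ ≤ ‖ζ‖ ‖g'‖ + ‖1 - ζ‖ ‖κ‖ (variations of W and E)`, `g'` the difference at this crossing; there are at most `8 s` other crossings. So
`V ≤ (1 / 2 + 3 ‖κ‖) V + √(8 s) √(12 ‖κ‖) V`, `V = 0`.
-/

set_option autoImplicit false

namespace Pool.Agent.Helper85.GD

open Pool.Agent.Helper85.Exp Pool.Agent.Helper2.PD Pool.Agent.Helper57.PD Pool.Agent.Helper16.PD Pool.Agent.Helper60.EV2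
  Pool.Agent.Helper27.EV2 Finset

/-! ### variation along a walk -/

theorem walk_inj {P : Type} {f : P → P} {e : P} {n : ℕ} {q : P → Prop} (h1 : ∀ i < n, ¬ q (f^[i] e))
    (h2 : q (f^[n] e)) : ∀ i < n, ∀ j < n, f^[i] e = f^[j] e → i = j := by
  have key : ∀ i j, i < j → j < n → f^[i] e ≠ f^[j] e := by
    intro i j hij hj h
    have h3 : f^[n - j] (f^[i] e) = f^[n - j] (f^[j] e) := by rw [h]
    rw [← Function.iterate_add_apply, ← Function.iterate_add_apply, show n - j + j = n by omega] at h3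
    exact h1 (n - j + i) (by omega) (by rw [h3]; exact h2)
  intro i hi j hj h
  rcases lt_trichotomy i j with h3 | h3 | h3
  · exact absurd h (key i j h3 hj)
  · exact h3
  · exact absurd h.symm (key j i h3 hi)

theorem walk_var {P : Type} [DecidableEq P] (f : P → P) (X : P → ℂ) (e : P) (n : ℕ) (T : Finset P)
    (hT : ∀ i < n, f^[i] e ∈ T) (hinj : ∀ i < n, ∀ j < n, f^[i] e = f^[j] e → i = j) :
    ‖X (f^[n] e) - X e‖ ≤ ∑ x ∈ T, ‖X (f x) - X x‖ := by
  have h1 : X (f^[n] e) - X e = ∑ i ∈ range n, (X (f (f^[i] e)) - X (f^[i] e)) := by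
    have := Finset.sum_range_sub (fun i => X (f^[i] e)) n
    rw [Function.iterate_zero_apply] at this
    rw [← this]
    refine Finset.sum_congr rfl fun i _ => ?_
    rw [Function.iterate_succ_apply']
  rw [h1]
  refine (norm_sum_le _ _).trans ?_
  have h2 : ∑ i ∈ range n, ‖X (f (f^[i] e)) - X (f^[i] e)‖ = ∑ x ∈ (range n).image (fun i => f^[i] e), ‖X (f x) - X x‖ := by
    rw [Finset.sum_image]
    intro i hi j hj h
    exact hinj i (mem_range.1 hi) j (mem_range.1 hj) h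
  rw [h2]
  refine Finset.sum_le_sum_of_subset_of_nonneg ?_ fun _ _ _ => norm_nonneg _
  intro x hx
  obtain ⟨i, hi, rfl⟩ := mem_image.1 hx
  exact hT i (mem_range.1 hi)

theorem cycle_var {P : Type} [Fintype P] [DecidableEq P] (σ : Equiv.Perm P) (X : P → ℂ) {e e' : P} (h : σ.SameCycle e e') :
    ‖X e' - X e‖ ≤ ∑ x, ‖X (σ x) - X x‖ := by
  classical
  have hex : ∃ n : ℕ, (⇑σ)^[n] e = e' := by
    obtain ⟨n, hn⟩ := h.exists_nat_pow_eq
    exact ⟨n, by rw [← hn]; rfl⟩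
  have h1 := walk_inj (f := ⇑σ) (e := e) (n := Nat.find hex) (q := fun x => x = e')
    (fun i hi => Nat.find_min hex hi) (Nat.find_spec hex)
  have h2 := walk_var (⇑σ) X e (Nat.find hex) univ (fun _ _ => mem_univ _) h1
  rwa [Nat.find_spec hex] at h2

open Classical in
/-- summation by parts along the cycles of a permutation -/
theorem cycle_parts {P : Type} [Fintype P] (σ : Equiv.Perm P) (X Y : P → ℂ) :
    ‖∑ e, star (X e) * (Y (σ e) - Y e)‖ ≤ (∑ x, ‖X (σ x) - X x‖) * ∑ x, ‖Y (σ x) - Y x‖ := by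
  let rep : P → P := fun e => (Quotient.mk (Equiv.Perm.SameCycle.setoid σ) e).out
  have hrep : ∀ e, σ.SameCycle (rep e) e := fun e => Quotient.exact (Quotient.out_eq (Quotient.mk (Equiv.Perm.SameCycle.setoid σ) e))
  have hrs : ∀ e, rep (σ e) = rep e := by
    intro e
    have : Quotient.mk (Equiv.Perm.SameCycle.setoid σ) (σ e) = Quotient.mk (Equiv.Perm.SameCycle.setoid σ) e :=
      Quotient.sound (show σ.SameCycle (σ e) e from (Equiv.Perm.sameCycle_apply_left.2 (Equiv.Perm.SameCycle.refl σ e)))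
    simp only [rep, this]
  have h0 : ∑ e, star (X (rep e)) * (Y (σ e) - Y e) = 0 := by
    simp only [mul_sub, Finset.sum_sub_distrib]
    rw [sub_eq_zero, ← Equiv.sum_comp σ fun e => star (X (rep e)) * Y e]
    exact Finset.sum_congr rfl fun e _ => by rw [hrs]
  have h1 : ∑ e, star (X e) * (Y (σ e) - Y e) = ∑ e, star (X e - X (rep e)) * (Y (σ e) - Y e) := by
    simp only [star_sub, sub_mul, Finset.sum_sub_distrib]
    rw [h0, sub_zero]
  rw [h1, Finset.mul_sum]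
  refine (norm_sum_le _ _).trans (Finset.sum_le_sum fun e _ => ?_)
  rw [norm_mul, norm_star]
  exact mul_le_mul_of_nonneg_right (cycle_var σ X (hrep e)) (norm_nonneg _)

/-! ### one crossing -/

theorem cross_far {ζ n s y : ℂ} (hζ : ‖ζ‖ ≤ 1 / 2) (h : n - ζ * s - (1 - ζ) * y = 0) :
    ‖n‖ ^ 2 - ‖s‖ ^ 2 + 1 / 3 * ‖n - s‖ ^ 2 ≤ 2 * (star y * (n - s)).re := by
  have h1 : n - y = ζ * (s - y) := by linear_combination h
  have h2 : n - s = (ζ - 1) * (s - y) := by linear_combination h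
  have h3 : ‖n - y‖ ^ 2 = ‖ζ‖ ^ 2 * ‖s - y‖ ^ 2 := by rw [h1, norm_mul, mul_pow]
  have h4 : ‖n - s‖ ^ 2 ≤ (3 / 2) ^ 2 * ‖s - y‖ ^ 2 ∧ 1 / 3 * ‖n - s‖ ^ 2 ≤ (1 - ‖ζ‖ ^ 2) * ‖s - y‖ ^ 2 := by
    have h5 : ‖ζ - 1‖ ≤ 1 + ‖ζ‖ := by
      have := norm_sub_le ζ 1
      rw [norm_one] at this
      linarith
    have h6 : ‖ζ - 1‖ ^ 2 ≤ (1 + ‖ζ‖) ^ 2 := pow_le_pow_left₀ (norm_nonneg _) h5 2
    rw [h2, norm_mul, mul_pow]
    have h7 := norm_nonneg ζ
    constructor
    · refine mul_le_mul_of_nonneg_right ?_ (sq_nonneg _)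
      nlinarith
    · rw [← mul_assoc]
      refine mul_le_mul_of_nonneg_right ?_ (sq_nonneg _)
      nlinarith
  have h8 : ‖n‖ ^ 2 - ‖s‖ ^ 2 = ‖n - y‖ ^ 2 - ‖s - y‖ ^ 2 + 2 * (star y * (n - s)).re := by
    simp only [← Complex.normSq_eq_norm_sq, Complex.normSq_apply, Complex.mul_re, Complex.sub_re, Complex.sub_im, Complex.star_def,
      Complex.conj_re, Complex.conj_im]
    ring
  rw [h8, h3]
  linarith [h4.2]

/-! ### the shadow -/

section shadow

variable {P : Type} {G : Sh P}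

/-- the difference of the faces in front of and behind the crossing of the passage `p`, `lf p = true` -/
noncomputable def gg (c : Face G → ℂ) (p : P) : ℂ := c (Rf G p) - c (Lf G (G.nxt.symm p))

theorem stepR (ho : ∀ i, G.op i ≠ i) (c : Face G → ℂ) {e : P} (h : G.lf (G.nxt e) = true) :
    c (Lf G (sg G e)) - c (Lf G e) = gg c (G.nxt e) ∧ c (Rf G (sg G e)) - c (Rf G e) = 0 := by
  have h1 := corner_N h
  have h2 := corner_E h (ho _)
  rw [Equiv.symm_apply_apply] at h2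
  rw [sg_apply, gg, Equiv.symm_apply_apply, h1, h2]
  exact ⟨rfl, sub_self _⟩

theorem stepL (ho : ∀ i, G.op i ≠ i) (c : Face G → ℂ) {e : P} (h : G.lf (G.nxt e) = false) :
    c (Lf G (sg G e)) - c (Lf G e) = 0 ∧ c (Rf G (sg G e)) - c (Rf G e) = gg c (G.op (G.nxt e)) := by
  have h0 : G.lf (G.op (G.nxt e)) = true := by rw [G.lf_op _ (ho _), h]; rfl
  have h1 := corner_W h0 (ho _)
  have h2 := corner_S h0
  rw [G.op_op, Equiv.symm_apply_apply] at h1 h2
  rw [sg_apply, gg, h1, h2]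
  exact ⟨sub_self _, rfl⟩

variable [Fintype P]

/-- the total variation -/
noncomputable def VV (c : Face G → ℂ) : ℝ := ∑ p ∈ univ.filter (fun p : P => G.lf p = true), ‖gg c p‖

theorem VV_nonneg (c : Face G → ℂ) : 0 ≤ VV c := Finset.sum_nonneg fun _ _ => norm_nonneg _

theorem sum_dX (ho : ∀ i, G.op i ≠ i) (c : Face G → ℂ) : ∑ e, ‖c (Lf G (sg G e)) - c (Lf G e)‖ = VV c := by
  have h1 : ∀ e, ‖c (Lf G (sg G e)) - c (Lf G e)‖ = if G.lf (G.nxt e) = true then ‖gg c (G.nxt e)‖ else 0 := by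
    intro e
    cases h : G.lf (G.nxt e) with
    | true => rw [(stepR ho c h).1, if_pos rfl]
    | false => rw [(stepL ho c h).1, norm_zero, if_neg (by simp)]
  rw [Finset.sum_congr rfl fun e _ => h1 e, Equiv.sum_comp G.nxt fun p => if G.lf p = true then ‖gg c p‖ else 0, VV, Finset.sum_filter]

theorem sum_dY (ho : ∀ i, G.op i ≠ i) (c : Face G → ℂ) : ∑ e, ‖c (Rf G (sg G e)) - c (Rf G e)‖ = VV c := by
  have h1 : ∀ e, ‖c (Rf G (sg G e)) - c (Rf G e)‖ = if G.lf (sg G e) = true then ‖gg c (sg G e)‖ else 0 := by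
    intro e
    cases h : G.lf (G.nxt e) with
    | true =>
      have h2 : G.lf (sg G e) = false := by rw [sg_apply, G.lf_op _ (ho _), h]; rfl
      rw [(stepR ho c h).2, norm_zero, h2, if_neg (by simp)]
    | false =>
      have h2 : G.lf (sg G e) = true := by rw [sg_apply, G.lf_op _ (ho _), h]; rfl
      rw [(stepL ho c h).2, h2, if_pos rfl, sg_apply]
  rw [Finset.sum_congr rfl fun e _ => h1 e, Equiv.sum_comp (sg G) fun p => if G.lf p = true then ‖gg c p‖ else 0, VV, Finset.sum_filter]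

/-- the bilinear form -/
noncomputable def QQ (c : Face G → ℂ) : ℂ :=
  ∑ p ∈ univ.filter (fun p : P => G.lf p = true), star (c (Lf G p) + c (Rf G (G.op p))) * gg c p

theorem QQ_le (ho : ∀ i, G.op i ≠ i) (c : Face G → ℂ) : ‖QQ c‖ ≤ 2 * VV c ^ 2 := by
  have h1 : ∑ e, star (c (Lf G e)) * (c (Rf G (sg G e)) - c (Rf G e)) =
      ∑ p ∈ univ.filter (fun p : P => G.lf p = true), star (c (Lf G p)) * gg c p := by
    rw [Finset.sum_filter, ← Equiv.sum_comp (sg G) fun p => if G.lf p = true then star (c (Lf G p)) * gg c p else 0]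
    refine Finset.sum_congr rfl fun e _ => ?_
    cases h : G.lf (G.nxt e) with
    | true =>
      have h2 : G.lf (sg G e) = false := by rw [sg_apply, G.lf_op _ (ho _), h]; rfl
      rw [(stepR ho c h).2, h2, if_neg (by simp), mul_zero]
    | false =>
      have h2 : G.lf (sg G e) = true := by rw [sg_apply, G.lf_op _ (ho _), h]; rfl
      rw [(stepL ho c h).2, h2, if_pos rfl, ← sg_apply, sub_eq_zero.1 (stepL ho c h).1]
  have h2 : ∑ e, star (c (Rf G e)) * (c (Lf G (sg G e)) - c (Lf G e)) =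
      ∑ p ∈ univ.filter (fun p : P => G.lf p = true), star (c (Rf G (G.op p))) * gg c p := by
    rw [Finset.sum_filter, ← Equiv.sum_comp G.nxt fun p => if G.lf p = true then star (c (Rf G (G.op p))) * gg c p else 0]
    refine Finset.sum_congr rfl fun e _ => ?_
    cases h : G.lf (G.nxt e) with
    | true => rw [(stepR ho c h).1, if_pos rfl, ← sg_apply, sub_eq_zero.1 (stepR ho c h).2]
    | false => rw [(stepL ho c h).1, if_neg (by simp), mul_zero]
  have h3 : QQ c = ∑ e, star (c (Lf G e)) * (c (Rf G (sg G e)) - c (Rf G e)) +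
      ∑ e, star (c (Rf G e)) * (c (Lf G (sg G e)) - c (Lf G e)) := by
    rw [h1, h2, ← Finset.sum_add_distrib, QQ]
    exact Finset.sum_congr rfl fun p _ => by rw [star_add, add_mul]
  rw [h3]
  have h4 := cycle_parts (sg G) (fun e => c (Lf G e)) (fun e => c (Rf G e))
  have h5 := cycle_parts (sg G) (fun e => c (Rf G e)) (fun e => c (Lf G e))
  simp only [sum_dX ho, sum_dY ho] at h4 h5
  calc _ ≤ _ := norm_add_le _ _
    _ ≤ VV c * VV c + VV c * VV c := add_le_add h4 h5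
    _ = 2 * VV c ^ 2 := by ring

/-- the sum of `‖N‖² - ‖S‖²` vanishes -/
theorem sum_NS (ho : ∀ i, G.op i ≠ i) (c : Face G → ℂ) :
    ∑ p ∈ univ.filter (fun p : P => G.lf p = true), (‖c (Rf G p)‖ ^ 2 - ‖c (Lf G (G.nxt.symm p))‖ ^ 2) = 0 := by
  let q : P → ℝ := fun e => ‖c (Lf G e)‖ ^ 2 + ‖c (Rf G e)‖ ^ 2
  have h1 : ∀ p, G.lf p = true → (q p + q (G.op p)) - (q (G.nxt.symm p) + q (G.nxt.symm (G.op p))) =
      2 * (‖c (Rf G p)‖ ^ 2 - ‖c (Lf G (G.nxt.symm p))‖ ^ 2) := by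
    intro p hp
    simp only [q]
    rw [corner_E hp (ho p), ← corner_S hp, ← corner_W hp (ho p), ← corner_N hp]
    ring
  have tot : ∑ p ∈ univ.filter (fun p : P => G.lf p = true),
      ((q p + q (G.op p)) - (q (G.nxt.symm p) + q (G.nxt.symm (G.op p)))) = 0 := by
    rw [Finset.sum_sub_distrib, ← Pool.Agent.Helper8.GD.sum_split ho q,
      ← Pool.Agent.Helper8.GD.sum_split ho fun i => q (G.nxt.symm i), sub_eq_zero]
    exact (Equiv.sum_comp G.nxt.symm q).symm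
  rw [Finset.sum_congr rfl fun p hp => h1 p (mem_filter.1 hp).2, ← Finset.mul_sum] at tot
  exact (mul_eq_zero.1 tot).resolve_left two_ne_zero

/-- the energy -/
theorem energy (ho : ∀ i, G.op i ≠ i) {ζ κ : ℂ} (hζ : ‖ζ‖ ≤ 1 / 2) (c : Face G → ℂ)
    (hrow : ∀ p, G.lf p = true →
      c (Rf G p) - ζ * c (Lf G (G.nxt.symm p)) - (1 - ζ) * κ * (c (Lf G p) + c (Rf G (G.op p))) = 0) :
    ∑ p ∈ univ.filter (fun p : P => G.lf p = true), ‖gg c p‖ ^ 2 ≤ 12 * ‖κ‖ * VV c ^ 2 := by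
  have h1 : ∑ p ∈ univ.filter (fun p : P => G.lf p = true), ((‖c (Rf G p)‖ ^ 2 - ‖c (Lf G (G.nxt.symm p))‖ ^ 2) +
      1 / 3 * ‖gg c p‖ ^ 2) ≤ ∑ p ∈ univ.filter (fun p : P => G.lf p = true),
        2 * (star (κ * (c (Lf G p) + c (Rf G (G.op p)))) * gg c p).re := by
    refine Finset.sum_le_sum fun p hp => ?_
    refine cross_far hζ ?_
    rw [← mul_assoc]
    exact hrow p (mem_filter.1 hp).2
  rw [Finset.sum_add_distrib, sum_NS ho, zero_add, ← Finset.mul_sum, ← Finset.mul_sum, ← Complex.re_sum] at h1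
  have h2 : ∑ p ∈ univ.filter (fun p : P => G.lf p = true), star (κ * (c (Lf G p) + c (Rf G (G.op p)))) * gg c p = star κ * QQ c := by
    rw [QQ, Finset.mul_sum]
    refine Finset.sum_congr rfl fun p _ => ?_
    rw [StarMul.star_mul]
    ring
  rw [h2] at h1
  have h3 : (star κ * QQ c).re ≤ ‖κ‖ * (2 * VV c ^ 2) := by
    refine (Complex.re_le_norm _).trans ?_
    rw [norm_mul, norm_star]
    exact mul_le_mul_of_nonneg_left (QQ_le ho c) (norm_nonneg _)
  linarith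

open Classical in
/-- **Chains**: the difference at a crossing behind which there is a face with one crossing behind it. -/
theorem chain (ho : ∀ i, G.op i ≠ i) {ζ κ : ℂ} (c : Face G → ℂ)
    (hrow : ∀ p, G.lf p = true →
      c (Rf G p) - ζ * c (Lf G (G.nxt.symm p)) - (1 - ζ) * κ * (c (Lf G p) + c (Rf G (G.op p))) = 0)
    {f : Face G} (hk : kf G f = 1) {p' : P} (hp' : G.lf p' = true) (hf : Lf G (G.nxt.symm p') = f) :
    ‖gg c p'‖ ≤ ‖ζ‖ * (∑ p ∈ (univ.filter (fun p : P => G.lf p = true)).filter (fun p => Rf G p = f), ‖gg c p‖) +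
      ‖1 - ζ‖ * ‖κ‖ * ((∑ e ∈ univ.filter (fun e => Rf G e = f), ‖c (Lf G (sg G e)) - c (Lf G e)‖) +
        ∑ e ∈ univ.filter (fun e => Lf G e = f), ‖c (Rf G (sg G e)) - c (Rf G e)‖) := by
  obtain ⟨p, ⟨hp, hpf⟩, -⟩ := kf_one_N hk
  obtain ⟨p0, -, h0⟩ := kf_one_S ho hk
  have hlf : ∀ p, G.lf (G.op p) = !G.lf p := fun p => G.lf_op p (ho p)
  have hreg := Pool.Agent.Helper49.PD.regW_of (G := G) ho (C := fun _ => False) hp (fun _ _ => not_false) (fun x y hx hy hx2 hy2 => by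
    rw [h0 x hx (hx2.trans hpf), h0 y hy (hy2.trans hpf)])
  obtain ⟨a, b, h1, h2, h3, h4, -, -, h7⟩ := hreg
  have hsf : Pool.Agent.Helper49.PD.sf G.nxt G.op = ⇑(sg G) := by
    funext e
    rfl
  rw [hsf] at h1 h2 h3 h4 h7
  have lface : ∀ i ≤ a, Rf G ((⇑(sg G))^[i] p) = Rf G p := by
    rw [← hsf] at h1 ⊢
    exact Pool.Agent.Helper49.PD.left_face (R := Rf G) (fun x hx => corner_E hx (ho x)) h1
  have rface : ∀ i ≤ b, Lf G ((⇑(sg G))^[i] (G.op p)) = Lf G (G.op p) := by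
    rw [← hsf] at h3 ⊢
    exact Pool.Agent.Helper49.PD.right_face (L := Lf G) G.op_op hlf (fun x hx => corner_W hx (ho x)) h3
  have hLp : Lf G (G.op p) = f := by rw [← corner_N hp, hpf]
  have hq : G.nxt ((⇑(sg G))^[b] (G.op p)) = p' := by
    have e1 := h0 _ h4 (by rw [Equiv.symm_apply_apply, rface b le_rfl, hLp])
    rw [e1, h0 p' hp' hf]
  have ha : (⇑(sg G))^[a] p = G.nxt.symm (G.op p') := by
    rw [← hq, ← h7, Equiv.symm_apply_apply]
  have hb : (⇑(sg G))^[b] (G.op p) = G.nxt.symm p' := by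
    rw [← hq, Equiv.symm_apply_apply]
  have v1 := walk_var (⇑(sg G)) (fun e => c (Lf G e)) p a (univ.filter fun e => Rf G e = f)
    (fun i hi => mem_filter.2 ⟨mem_univ _, (lface i hi.le).trans hpf⟩)
    (walk_inj (q := fun x => G.lf (G.nxt x) = false) (fun i hi => by rw [h1 i hi]; simp) h2)
  have v2 := walk_var (⇑(sg G)) (fun e => c (Rf G e)) (G.op p) b (univ.filter fun e => Lf G e = f)
    (fun i hi => mem_filter.2 ⟨mem_univ _, (rface i hi.le).trans hLp⟩)
    (walk_inj (q := fun x => G.lf (G.nxt x) = true) (fun i hi => by rw [h3 i hi]; simp) h4)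
  rw [ha, ← corner_W hp' (ho p')] at v1
  rw [hb, corner_E hp' (ho p')] at v2
  have r1 := hrow p hp
  have r2 := hrow p' hp'
  rw [hf] at r2
  rw [hpf] at r1
  have key : gg c p' = ζ * gg c p + (1 - ζ) * κ * ((c (Lf G p') - c (Lf G p)) + (c (Rf G (G.op p')) - c (Rf G (G.op p)))) := by
    unfold gg
    rw [hf, hpf]
    linear_combination r2 - r1
  rw [key]
  refine (norm_add_le _ _).trans (add_le_add ?_ ?_)
  · rw [norm_mul]
    refine mul_le_mul_of_nonneg_left ?_ (norm_nonneg _)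
    exact Finset.single_le_sum (f := fun p => ‖gg c p‖) (fun _ _ => norm_nonneg _) (mem_filter.2 ⟨mem_filter.2 ⟨mem_univ _, hp⟩, hpf⟩)
  · rw [norm_mul, norm_mul]
    refine mul_le_mul_of_nonneg_left ?_ (by positivity)
    exact (norm_add_le _ _).trans (add_le_add v1 v2)

open Classical in
/-- the sum over the crossings of chains -/
theorem chain_sum (ho : ∀ i, G.op i ≠ i) {ζ κ : ℂ} (c : Face G → ℂ)
    (hrow : ∀ p, G.lf p = true →
      c (Rf G p) - ζ * c (Lf G (G.nxt.symm p)) - (1 - ζ) * κ * (c (Lf G p) + c (Rf G (G.op p))) = 0) :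
    ∑ p ∈ univ.filter (fun p : P => G.lf p = true ∧ kf G (Lf G (G.nxt.symm p)) = 1), ‖gg c p‖ ≤
      ‖ζ‖ * VV c + ‖1 - ζ‖ * ‖κ‖ * (VV c + VV c) := by
  have : Fintype (Face G) := Fintype.ofFinite _
  let F : Face G → ℝ := fun f =>
    ‖ζ‖ * (∑ p ∈ (univ.filter (fun p : P => G.lf p = true)).filter (fun p => Rf G p = f), ‖gg c p‖) +
      ‖1 - ζ‖ * ‖κ‖ * ((∑ e ∈ univ.filter (fun e => Rf G e = f), ‖c (Lf G (sg G e)) - c (Lf G e)‖) +
        ∑ e ∈ univ.filter (fun e => Lf G e = f), ‖c (Rf G (sg G e)) - c (Rf G e)‖)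
  have hF0 : ∀ f, 0 ≤ F f := fun f => by
    have e1 : 0 ≤ ∑ p ∈ (univ.filter (fun p : P => G.lf p = true)).filter (fun p => Rf G p = f), ‖gg c p‖ :=
      Finset.sum_nonneg fun _ _ => norm_nonneg _
    have e2 : 0 ≤ ∑ e ∈ univ.filter (fun e => Rf G e = f), ‖c (Lf G (sg G e)) - c (Lf G e)‖ :=
      Finset.sum_nonneg fun _ _ => norm_nonneg _
    have e3 : 0 ≤ ∑ e ∈ univ.filter (fun e => Lf G e = f), ‖c (Rf G (sg G e)) - c (Rf G e)‖ :=
      Finset.sum_nonneg fun _ _ => norm_nonneg _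
    positivity
  have hF : ∑ f, F f = ‖ζ‖ * VV c + ‖1 - ζ‖ * ‖κ‖ * (VV c + VV c) := by
    simp only [F, Finset.sum_add_distrib, ← Finset.mul_sum]
    rw [Finset.sum_fiberwise (univ.filter (fun p : P => G.lf p = true)) (Rf G) fun p => ‖gg c p‖,
      Finset.sum_fiberwise univ (Rf G) fun e => ‖c (Lf G (sg G e)) - c (Lf G e)‖,
      Finset.sum_fiberwise univ (Lf G) fun e => ‖c (Rf G (sg G e)) - c (Rf G e)‖, sum_dX ho, sum_dY ho]
    rfl
  rw [← hF]
  set A := univ.filter (fun p : P => G.lf p = true ∧ kf G (Lf G (G.nxt.symm p)) = 1) with hA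
  have hinj : Set.InjOn (fun p : P => Lf G (G.nxt.symm p)) (A : Set P) := by
    intro x hx y hy hxy
    rw [Finset.mem_coe, hA, mem_filter] at hx hy
    obtain ⟨p0, -, h0⟩ := kf_one_S ho hx.2.2
    rw [h0 x hx.2.1 rfl, h0 y hy.2.1 hxy.symm]
  calc ∑ p ∈ A, ‖gg c p‖ ≤ ∑ p ∈ A, F (Lf G (G.nxt.symm p)) := Finset.sum_le_sum fun p hp => by
        rw [hA, mem_filter] at hp
        exact chain ho c hrow hp.2.2 hp.2.1 rfl
    _ = ∑ f ∈ A.image (fun p : P => Lf G (G.nxt.symm p)), F f := (Finset.sum_image hinj).symm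
    _ ≤ ∑ f, F f := Finset.sum_le_sum_of_subset_of_nonneg (subset_univ _) fun f _ _ => hF0 f

/-- **The differences vanish for small `κ`.** -/
theorem VV_zero {s : ℕ} (h : Good s G) {ζ κ : ℂ} (hζ : ‖ζ‖ ≤ 1 / 2) (hs : 1 ≤ s) (hκ : 1000 * s * ‖κ‖ ≤ 1)
    (c : Face G → ℂ) (hrow : ∀ p, G.lf p = true →
      c (Rf G p) - ζ * c (Lf G (G.nxt.symm p)) - (1 - ζ) * κ * (c (Lf G p) + c (Rf G (G.op p))) = 0) : VV c = 0 := by
  classical
  set V := VV c with hV
  have hV0 : 0 ≤ V := VV_nonneg c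
  have h1 := chain_sum h.ho c hrow
  have h2 := energy h.ho hζ c hrow
  set B := univ.filter (fun p : P => G.lf p = true ∧ ¬ kf G (Lf G (G.nxt.symm p)) = 1) with hB
  have hBc : B.card ≤ 8 * s := by
    have := Pool.Agent.Helper2.PD.special_card h.ho h.hp (sg G) (sg_apply G) h.hs ∅ B (fun p hp => by
      rw [hB, mem_filter] at hp
      exact ⟨hp.2.1, Or.inr (Or.inl hp.2.2)⟩)
    simpa using this
  have h3 : V = ∑ p ∈ univ.filter (fun p : P => G.lf p = true ∧ kf G (Lf G (G.nxt.symm p)) = 1), ‖gg c p‖ +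
      ∑ p ∈ B, ‖gg c p‖ := by
    rw [hV, VV, ← Finset.sum_filter_add_sum_filter_not _ fun p : P => kf G (Lf G (G.nxt.symm p)) = 1, Finset.filter_filter,
      Finset.filter_filter]
  -- Cauchy's inequality for the other crossings
  have h4 : (∑ p ∈ B, ‖gg c p‖) ^ 2 ≤ 8 * s * (12 * ‖κ‖ * V ^ 2) := by
    calc (∑ p ∈ B, ‖gg c p‖) ^ 2 ≤ B.card * ∑ p ∈ B, ‖gg c p‖ ^ 2 := sq_sum_le_card_mul_sum_sq
      _ ≤ (8 * s : ℕ) * ∑ p ∈ univ.filter (fun p : P => G.lf p = true), ‖gg c p‖ ^ 2 := by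
          refine mul_le_mul (by exact_mod_cast hBc) ?_ (Finset.sum_nonneg fun _ _ => sq_nonneg _) (by positivity)
          refine Finset.sum_le_sum_of_subset_of_nonneg ?_ fun _ _ _ => sq_nonneg _
          intro p hp
          rw [hB, mem_filter] at hp
          exact mem_filter.2 ⟨mem_univ _, hp.2.1⟩
      _ ≤ _ := by
          push_cast
          exact mul_le_mul_of_nonneg_left h2 (by positivity)
  have hs1 : (1 : ℝ) ≤ s := by exact_mod_cast hs
  have hκ1 : ‖κ‖ ≤ 1 / 1000 := by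
    have := norm_nonneg κ
    nlinarith
  have h5 : ∑ p ∈ B, ‖gg c p‖ ≤ 2 / 5 * V := by
    refine abs_le_of_sq_le_sq' (a := ∑ p ∈ B, ‖gg c p‖) ?_ (by positivity) |>.2
    refine h4.trans ?_
    have : 8 * (s : ℝ) * (12 * ‖κ‖ * V ^ 2) = (96 / 1000) * (1000 * s * ‖κ‖) * V ^ 2 := by ring
    rw [this]
    nlinarith [sq_nonneg V]
  have h6 : ‖1 - ζ‖ ≤ 3 / 2 := by
    have := norm_sub_le 1 ζ
    rw [norm_one] at this
    linarith
  have h7 : ‖ζ‖ * V + ‖1 - ζ‖ * ‖κ‖ * (V + V) ≤ 1 / 2 * V + 3 / 2 * (1 / 1000) * (V + V) := by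
    refine add_le_add (mul_le_mul_of_nonneg_right hζ hV0) (mul_le_mul_of_nonneg_right ?_ (by linarith))
    exact mul_le_mul h6 hκ1 (norm_nonneg _) (by norm_num)
  linarith

/-- If the differences vanish and `c` vanishes on both sides of one edge, then `c = 0`. -/
theorem zero_of_VV (ho : ∀ i, G.op i ≠ i) (hc : Conn G) {ζ κ : ℂ} (hζ1 : ζ ≠ 1) (hκ' : κ ≠ 0) (c : Face G → ℂ)
    (hrow : ∀ p, G.lf p = true →
      c (Rf G p) - ζ * c (Lf G (G.nxt.symm p)) - (1 - ζ) * κ * (c (Lf G p) + c (Rf G (G.op p))) = 0)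
    (hV : VV c = 0) {e₀ : P} (h1 : c (Lf G e₀) = 0) (h2 : c (Rf G e₀) = 0) (f : Face G) : c f = 0 := by
  have each : ∀ p, G.lf p = true → c (Lf G (G.nxt.symm p)) = κ * (c (Lf G p) + c (Rf G (G.op p))) ∧
      c (Rf G p) = κ * (c (Lf G p) + c (Rf G (G.op p))) := by
    intro p hp
    have h3 := (Finset.sum_eq_zero_iff_of_nonneg (fun p _ => norm_nonneg _)).1 hV p (mem_filter.2 ⟨mem_univ _, hp⟩)
    have h4 : c (Rf G p) - c (Lf G (G.nxt.symm p)) = 0 := norm_eq_zero.1 h3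
    have h5 := hrow p hp
    have h6 : (1 - ζ) * (c (Rf G p) - κ * (c (Lf G p) + c (Rf G (G.op p)))) = 0 := by
      linear_combination h5 - ζ * h4
    have h7 := (mul_eq_zero.1 h6).resolve_left (sub_ne_zero.2 hζ1.symm)
    exact ⟨by linear_combination h7 - h4, by linear_combination h7⟩
  -- the four edges of a crossing vanish together
  let Z : P → Prop := fun e => c (Lf G e) = 0 ∧ c (Rf G e) = 0
  have four : ∀ p, G.lf p = true → (Z (G.nxt.symm p) ∨ Z (G.nxt.symm (G.op p)) ∨ Z p ∨ Z (G.op p)) →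
      (Z (G.nxt.symm p) ∧ Z (G.nxt.symm (G.op p)) ∧ Z p ∧ Z (G.op p)) := by
    intro p hp h
    obtain ⟨a1, a2⟩ := each p hp
    have cE := corner_E hp (ho p)
    have cS := corner_S hp
    have cW := corner_W hp (ho p)
    have cN := corner_N hp
    have key : c (Lf G p) = 0 ∧ c (Rf G (G.op p)) = 0 := by
      rcases h with ⟨b1, b2⟩ | ⟨b1, b2⟩ | ⟨b1, b2⟩ | ⟨b1, b2⟩
      · rw [cE] at b2
        rw [b1, b2, add_zero] at a1
        exact ⟨(mul_eq_zero.1 a1.symm).resolve_left hκ', b2⟩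
      · rw [← cW] at b1
        rw [← cS] at b2
        rw [b1, b2, zero_add] at a1
        exact ⟨b1, (mul_eq_zero.1 a1.symm).resolve_left hκ'⟩
      · rw [b1, b2, zero_add] at a2
        exact ⟨b1, (mul_eq_zero.1 a2.symm).resolve_left hκ'⟩
      · rw [← cN] at b1
        rw [b1, b2, add_zero] at a2
        exact ⟨(mul_eq_zero.1 a2.symm).resolve_left hκ', b2⟩
    obtain ⟨k1, k2⟩ := key
    rw [k1, k2, add_zero, mul_zero] at a1 a2
    refine ⟨⟨a1, by rw [cE]; exact k2⟩, ⟨by rw [← cW]; exact k1, by rw [← cS]; exact a1⟩, ⟨k1, a2⟩, ⟨by rw [← cN]; exact a2, k2⟩⟩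
  have all : ∀ v, Z (G.nxt.symm v) := by
    have step : ∀ v, Z (G.nxt.symm v) → Z v ∧ Z (G.nxt.symm (G.op v)) := by
      intro v hv
      cases hl : G.lf v with
      | true =>
        have := four v hl (Or.inl hv)
        exact ⟨this.2.2.1, this.2.1⟩
      | false =>
        have hl' : G.lf (G.op v) = true := by rw [G.lf_op v (ho v), hl]; rfl
        have := four (G.op v) hl' (Or.inr (Or.inl (by rw [G.op_op]; exact hv)))
        rw [G.op_op] at this
        exact ⟨this.2.2.2, this.1⟩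
    have step' : ∀ v, Z v → Z (G.nxt.symm v) := by
      intro v hv
      cases hl : G.lf v with
      | true => exact (four v hl (Or.inr (Or.inr (Or.inl hv)))).1
      | false =>
        have hl' : G.lf (G.op v) = true := by rw [G.lf_op v (ho v), hl]; rfl
        have := four (G.op v) hl' (Or.inr (Or.inr (Or.inr (by rw [G.op_op]; exact hv))))
        rw [G.op_op] at this
        exact this.2.1
    refine hc (fun v => Z (G.nxt.symm v)) ⟨G.nxt e₀, ?_⟩ ?_ ?_
    · show Z (G.nxt.symm (G.nxt e₀))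
      rw [Equiv.symm_apply_apply]
      exact ⟨h1, h2⟩
    · intro v
      show Z (G.nxt.symm (G.nxt v)) ↔ _
      rw [Equiv.symm_apply_apply]
      exact ⟨step' v, fun h => (step v h).1⟩
    · intro v
      constructor
      · intro h
        have := (step _ h).2
        rwa [G.op_op] at this
      · intro h
        exact (step _ h).2
  have all' : ∀ v, Z v := by
    intro v
    have := all (G.nxt v)
    rwa [Equiv.symm_apply_apply] at this
  exact face_ind (p := fun f => c f = 0) (fun i => (all' i).1) (fun i => (all' i).2) f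

/-- There is at least one Seifert circle. -/
theorem circ_pos (b : P) : 1 ≤ Pool.Agent.Helper57.PD.circ G := by
  have : Nonempty (Quotient (Equiv.Perm.SameCycle.setoid (sg G))) := ⟨Quotient.mk _ b⟩
  have : Finite (Quotient (Equiv.Perm.SameCycle.setoid (sg G))) := Quotient.finite _
  exact Nat.one_le_iff_ne_zero.2 Nat.card_pos.ne'

/-- **FAR**, for face functions. -/
theorem far_face {s : ℕ} (h : Good s G) {ζ κ : ℂ} (hζ : ‖ζ‖ ≤ 1 / 2) (hκ0 : κ ≠ 0) (hκ : 1000 * s * ‖κ‖ ≤ 1)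
    (c : Face G → ℂ) (hrow : ∀ p, G.lf p = true →
      c (Rf G p) - ζ * c (Lf G (G.nxt.symm p)) - (1 - ζ) * κ * (c (Lf G p) + c (Rf G (G.op p))) = 0)
    {e₀ : P} (h1 : c (Lf G e₀) = 0) (h2 : c (Rf G e₀) = 0) (f : Face G) : c f = 0 := by
  refine zero_of_VV h.ho h.hc ?_ hκ0 c hrow (VV_zero h hζ ((circ_pos e₀).trans h.hs) hκ c hrow) h1 h2 f
  rintro rfl
  rw [norm_one] at hζ
  norm_num at hζ

/-- **FAR**, for the face determinant. -/
theorem Fdet_far {s : ℕ} (h : Good s G) (b : P) (e : Cr G ≃ (fdG h b).Col) {ζ κ : ℂ} (hζ : ‖ζ‖ ≤ 1 / 2)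
    (hκ0 : κ ≠ 0) (hκ : 1000 * s * ‖κ‖ ≤ 1) : Pool.Agent.Helper8.GD.Fdet h b e ζ κ ≠ 0 :=
  Pool.Agent.Helper8.GD.Fdet_ne h b e ζ κ fun c c1 c2 hr => far_face h hζ hκ0 hκ c hr c1 c2

/-- every `x` is `z⁻¹ - z` with `0 < ‖z‖ ≤ 1` -/
theorem exists_z (x : ℂ) : ∃ z : ℂ, z ≠ 0 ∧ ‖z‖ ≤ 1 ∧ z⁻¹ - z = x := by
  obtain ⟨z, hz⟩ : ∃ z : ℂ, z * z = x * x / 4 + 1 := by
    obtain ⟨z, hz⟩ := IsAlgClosed.exists_pow_nat_eq (x * x / 4 + 1) (n := 2) (by norm_num)
    exact ⟨z, by rw [← sq]; exact hz⟩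
  have key : ∀ w : ℂ, w * w + x * w - 1 = 0 → w ≠ 0 ∧ w⁻¹ - w = x := by
    intro w hw
    have h0 : w ≠ 0 := by
      rintro rfl
      norm_num at hw
    refine ⟨h0, ?_⟩
    field_simp
    linear_combination -hw
  have h1 : (z - x / 2) * (z - x / 2) + x * (z - x / 2) - 1 = 0 := by linear_combination hz
  have h2 : (-z - x / 2) * (-z - x / 2) + x * (-z - x / 2) - 1 = 0 := by linear_combination hz
  rcases le_total ‖z - x / 2‖ 1 with h3 | h3
  · exact ⟨_, (key _ h1).1, h3, (key _ h1).2⟩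
  · refine ⟨_, (key _ h2).1, ?_, (key _ h2).2⟩
    have h4 : ‖z - x / 2‖ * ‖-z - x / 2‖ = 1 := by
      rw [← norm_mul]
      have : (z - x / 2) * (-z - x / 2) = -1 := by linear_combination -hz
      rw [this, norm_neg, norm_one]
    nlinarith [norm_nonneg (-z - x / 2)]

open Classical in
/-- **FAR**: the Conway polynomial of a positive plane diagram with at most `s` Seifert circles has no zero `x` with
`1003 s ≤ ‖x‖`. (`hform`, `hA` are the two formulas of `Helper57.PD.one_shadow`.) -/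
theorem nab_far {s : ℕ} (h : Good s G) (b : P) {nab : Dg G → Polynomial ℤ}
    {e : Cr G ≃ (fdG h b).Col} {α : ℤ}
    (hform : ∀ z : ℂ, z ≠ 0 → W G.nxt G.op (kd z z⁻¹ (allPos G)) b =
        z ^ ((Nat.card (Cr G) : ℤ) + α) * Polynomial.aeval (z⁻¹ - z) (nab (allPos G)))
    (hA : ∀ z : ℂ, z ≠ 0 → ‖W G.nxt G.op (kd z z⁻¹ (allPos G)) b‖ =
        ‖z‖ ^ α * ‖(((fdG h b).A (z ^ 2) (-z) (-z)).submatrix id e).det‖)
    {x : ℂ} (hx : 1003 * (s : ℝ) ≤ ‖x‖) : Polynomial.aeval x (nab (allPos G)) ≠ 0 := by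
  obtain ⟨z, hz0, hz1, rfl⟩ := exists_z x
  have hs : (1 : ℝ) ≤ s := by exact_mod_cast (circ_pos b).trans h.hs
  have hzp : 0 < ‖z‖ := norm_pos_iff.2 hz0
  have h1 : 1002 * (s : ℝ) ≤ ‖z‖⁻¹ := by
    have := norm_sub_le z⁻¹ z
    rw [norm_inv] at this
    linarith
  have h2 : 1002 * s * ‖z‖ ≤ 1 := by
    calc 1002 * s * ‖z‖ ≤ ‖z‖⁻¹ * ‖z‖ := mul_le_mul_of_nonneg_right h1 hzp.le
      _ = 1 := inv_mul_cancel₀ hzp.ne'
  have h3 : ‖z‖ ≤ 1 / 1002 := by nlinarith
  have h4 : 1 - ‖z‖ ^ 2 ≤ ‖1 + z ^ 2‖ := by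
    have := norm_sub_norm_le 1 (-z ^ 2)
    rw [norm_one, norm_neg, norm_pow, sub_neg_eq_add] at this
    exact this
  have h5 : 1 + z ^ 2 ≠ 0 := by
    rw [← norm_pos_iff]
    nlinarith
  refine Pool.Agent.Helper8.GD.nab_ne_of_Fdet h b hform hA hz0 h5 (Fdet_far h b e ?_ (div_ne_zero hz0 h5) ?_)
  · rw [norm_neg, norm_pow]
    nlinarith
  · rw [norm_div, mul_div_assoc', div_le_one (by nlinarith)]
    refine le_trans ?_ h4
    nlinarith

end shadow

end Pool.Agent.Helper85.GD
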